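import Pool.Agent.Lib.MP_8fac0f_nt.AC.Wo
import Pool.Agent.Lib.MP_8fac0f_nt.AC.Sc
import Pool.Agent.Lib.MP_8fac0f_nt.AC.Lg

/-!
# The Thue-Morse sequence along `P + a`: every degree, almost all constants `a`
-/

set_option autoImplicit false

namespace Pool.Agent.Results.MP_8fac0f_nt.AlmostAllConstants

open Finset Polynomial Pool.Agent.Lib.MP_8fac0f_nt

/-- The Thue-Morse sequence: the binary sum of digits of `n`, modulo two. -/
def thueMorse (n : ℕ) : ℕ := (Nat.digits 2 n).sum % 2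

/-- The first values are 0, 1, 1, 0, 1, 0, 0, 1. -/
theorem thueMorse_values : (List.range 8).map thueMorse = [0, 1, 1, 0, 1, 0, 0, 1] := by
  simp [thueMorse, List.range_succ]

/-- Number of occurrences of the word `w` in the window of `N` places from `x` on of the Thue-Morse
sequence along the polynomial `P + a`: the `n` with `x ≤ n < x + N` and
`thueMorse ((P + a)(n + i)) = w i` for all `i`. -/
noncomputable def wordCount (P : ℤ[X]) (x : ℕ) {m : ℕ} (w : Fin m → Fin 2) (a N : ℕ) : ℕ :=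
  ((Ico x (x + N)).filter fun n : ℕ =>
    ∀ i : Fin m, thueMorse ((P + C (a : ℤ)).eval ((n + i : ℕ) : ℤ)).toNat = w i).card

/-- The same for a family of polynomials with a common constant: the `n < N` with
`thueMorse ((P i + a)(n)) = w i` for all `i`. -/
noncomputable def jointCount {m : ℕ} (P : Fin m → ℤ[X]) (w : Fin m → Fin 2) (a N : ℕ) : ℕ :=
  ((range N).filter fun n : ℕ =>
    ∀ i : Fin m, thueMorse ((P i + C (a : ℤ)).eval (n : ℤ)).toNat = w i).card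

/-- The scale `N` is good for `a`: the frequencies `cnt w a N / N` are within `A ^ (-c)` of
`1 / 2 ^ m` for all words `w`. -/
def Good {m : ℕ} (cnt : (Fin m → Fin 2) → ℕ → ℕ → ℕ) (c : ℝ) (A a N : ℕ) : Prop :=
  ∀ w : Fin m → Fin 2, |(cnt w a N : ℝ) / N - 1 / 2 ^ m| ≤ (A : ℝ) ^ (-c)

/-- All scales `N` between `Y` and `Y * exp (A ^ c)` are good for `a`. -/
def GoodFrom {m : ℕ} (cnt : (Fin m → Fin 2) → ℕ → ℕ → ℕ) (c : ℝ) (A Y a : ℕ) : Prop :=
  ∀ N : ℕ, Y ≤ N → (N : ℝ) ≤ Y * Real.exp ((A : ℝ) ^ c) → Good cnt c A a N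

open Classical in
/-- Up to `X` the scales which are not good for `a` have a sum of reciprocals of at most
`A ^ (-c) * log X`. -/
def LogGood {m : ℕ} (cnt : (Fin m → Fin 2) → ℕ → ℕ → ℕ) (c : ℝ) (A X a : ℕ) : Prop :=
  ∑ N ∈ (Icc 1 X).filter (fun N => ¬ Good cnt c A a N), (1 / N : ℝ) ≤
    (A : ℝ) ^ (-c) * Real.log X

/-- `cnt w a N` is close to `N / 2 ^ m`, with power savings. First: in mean square over the
constants `a` of every interval, for every `N`. Then, for all but few `a` of an interval of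
length `A`: second, at all scales between `Y` and `Y * exp (A ^ c)`, for every `Y ≥ A`; third, at
most scales up to `X` in the logarithmic sense, for every `X` with `log X ≥ A ^ 2`; fourth, both of
this for infinitely many `Y = X` in `S`, for every infinite set `S`. -/
def NearNormal (m : ℕ) (c K : ℝ) (cnt : (Fin m → Fin 2) → ℕ → ℕ → ℕ) : Prop :=
  (∀ (w : Fin m → Fin 2) (b A N : ℕ), 1 ≤ A → 1 ≤ N →
    (∑ a ∈ Ico b (b + A), ((cnt w a N : ℝ) / N - 1 / 2 ^ m) ^ 2) / A ≤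
      K * ((A : ℝ) ^ (-c) + (N : ℝ) ^ (-c))) ∧
  (∀ b A Y : ℕ, 1 ≤ A → A ≤ Y → ∃ E : Finset ℕ, (E.card : ℝ) ≤ K * (A : ℝ) ^ (1 - c) ∧
    ∀ a ∈ Ico b (b + A), a ∉ E → GoodFrom cnt c A Y a) ∧
  (∀ b A X : ℕ, 1 ≤ A → (A : ℝ) ^ 2 ≤ Real.log X →
    ∃ E : Finset ℕ, (E.card : ℝ) ≤ K * (A : ℝ) ^ (1 - c) ∧
      ∀ a ∈ Ico b (b + A), a ∉ E → LogGood cnt c A X a) ∧
  (∀ b A : ℕ, 1 ≤ A → ∀ S : Set ℕ, S.Infinite →
    ∃ E : Finset ℕ, (E.card : ℝ) ≤ K * (A : ℝ) ^ (1 - c) ∧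
      ∀ a ∈ Ico b (b + A), a ∉ E →
        {Y ∈ S | GoodFrom cnt c A Y a ∧ LogGood cnt c A Y a}.Infinite)

private theorem goodFrom_mono {m : ℕ} (cnt : (Fin m → Fin 2) → ℕ → ℕ → ℕ) {c d : ℝ} (hcd : c ≤ d)
    {A Y a : ℕ} (hA : 1 ≤ A) (h : GoodFrom cnt d A Y a) : GoodFrom cnt c A Y a := by
  have hA' : (1 : ℝ) ≤ A := by exact_mod_cast hA
  intro N hN hN' w
  refine (h N hN (hN'.trans ?_) w).trans ?_
  · exact mul_le_mul_of_nonneg_left
      (Real.exp_le_exp.2 (Real.rpow_le_rpow_of_exponent_le hA' hcd)) (Nat.cast_nonneg _)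
  · exact Real.rpow_le_rpow_of_exponent_le hA' (by linarith)

private theorem logGood_of {m : ℕ} (cnt : (Fin m → Fin 2) → ℕ → ℕ → ℕ) {c : ℝ} {A X a : ℕ}
    (h : AC.LogGood cnt c A X a) : LogGood cnt c A X a := by
  classical
  unfold LogGood
  unfold AC.LogGood at h
  have h1 : (Icc 1 X).filter (fun N => ¬ Good cnt c A a N) =
      (Icc 1 X).filter (AC.BadAt cnt c A a) := by
    refine filter_congr fun N _ => ?_
    unfold Good AC.BadAt
    push Not
    exact Iff.rfl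
  convert h using 2

private theorem infinitely_often {m : ℕ} (cnt : (Fin m → Fin 2) → ℕ → ℕ → ℕ) (c K : ℝ)
    (h : ∀ b A Y : ℕ, 1 ≤ A → A ≤ Y → ∃ E : Finset ℕ, (E.card : ℝ) ≤ K * (A : ℝ) ^ (1 - c) ∧
      ∀ a ∈ Ico b (b + A), a ∉ E → GoodFrom cnt c A Y a)
    (hlog : ∀ b A X : ℕ, 1 ≤ A → (A : ℝ) ^ 2 ≤ Real.log X →
      ∃ E : Finset ℕ, (E.card : ℝ) ≤ K * (A : ℝ) ^ (1 - c) ∧
        ∀ a ∈ Ico b (b + A), a ∉ E → LogGood cnt c A X a)
    (b A : ℕ) (hA : 1 ≤ A) (S : Set ℕ) (hS : S.Infinite) :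
    ∃ E : Finset ℕ, (E.card : ℝ) ≤ 2 * K * (A : ℝ) ^ (1 - c) ∧
        ∀ a ∈ Ico b (b + A), a ∉ E →
          {Y ∈ S | GoodFrom cnt c A Y a ∧ LogGood cnt c A Y a}.Infinite := by
  classical
  set E := (Ico b (b + A)).filter fun a =>
    ¬ {Y ∈ S | GoodFrom cnt c A Y a ∧ LogGood cnt c A Y a}.Infinite with hE
  have hfin : (⋃ a ∈ E, {Y ∈ S | GoodFrom cnt c A Y a ∧ LogGood cnt c A Y a}).Finite := by
    refine Set.Finite.biUnion E.finite_toSet fun a ha => ?_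
    have := (mem_filter.1 (mem_coe.1 ha)).2
    exact Set.not_infinite.1 this
  obtain ⟨M, hM⟩ := exists_nat_ge (Real.exp ((A : ℝ) ^ 2))
  obtain ⟨Y, hYS, hY⟩ := (hS.sdiff (hfin.union (Set.finite_lt_nat (max A M)))).nonempty
  simp only [Set.mem_union, not_or, Set.mem_ofPred_eq, not_lt] at hY
  have hYA : A ≤ Y := (le_max_left _ _).trans hY.2
  have hYM : (M : ℝ) ≤ Y := by exact_mod_cast (le_max_right _ _).trans hY.2
  have hYlog : (A : ℝ) ^ 2 ≤ Real.log Y := by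
    rw [Real.le_log_iff_exp_le (by exact_mod_cast lt_of_lt_of_le hA hYA)]
    exact hM.trans hYM
  obtain ⟨E', hE', h'⟩ := h b A Y hA hYA
  obtain ⟨E'', hE'', h''⟩ := hlog b A Y hA hYlog
  refine ⟨E, ?_, fun a ha haE => ?_⟩
  · have h1 : E ⊆ E' ∪ E'' := by
      intro a ha
      by_contra hn
      rw [mem_union, not_or] at hn
      have ha' := mem_filter.1 ha
      refine hY.1 ?_
      simp only [Set.mem_iUnion]
      exact ⟨a, ha, hYS, h' a ha'.1 hn.1, h'' a ha'.1 hn.2⟩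
    have h2 : E.card ≤ E'.card + E''.card := (card_le_card h1).trans (card_union_le _ _)
    have h3 : (E.card : ℝ) ≤ E'.card + E''.card := by exact_mod_cast h2
    linarith
  · by_contra hn
    exact haE (mem_filter.2 ⟨ha, hn⟩)

private theorem jointCount_eq {m : ℕ} (P : Fin m → ℤ[X])
    (hpos : ∀ i, ∀ n : ℕ, 0 ≤ (P i).eval (n : ℤ)) (w : Fin m → Fin 2) (a N : ℕ) :
    jointCount P w a N = AC.cnt P w a N := by
  unfold jointCount AC.cnt
  congr 1
  ext n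
  simp only [mem_filter]
  refine and_congr_right fun _ => forall_congr' fun i => ?_
  have h1 : ((P i + C (a : ℤ)).eval (n : ℤ)).toNat = ((P i).eval (n : ℤ)).toNat + a := by
    rw [eval_add, eval_C]
    have := hpos i n
    omega
  rw [h1]
  rfl

private theorem nearNormal_joint (m e r : ℕ) : ∃ c K : ℝ, 0 < c ∧ 0 < K ∧
    ∀ P : Fin m → ℤ[X], AC.Fam P e r → NearNormal m c K (jointCount P) := by
  obtain ⟨c₂, K₂, hc₂, hK₂, h₂⟩ := AC.words_second_moment m e r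
  obtain ⟨c₁, K₁, hc₁, hK₁, h₁⟩ := AC.scales' (m := m) c₂ K₂ hc₂ hK₂
  obtain ⟨c₃, K₃, hc₃, hK₃, h₃⟩ := AC.log_one (m := m) c₂ K₂ hc₂ hK₂
  obtain ⟨c, hc, hcc₁, hcc₂, hcc₃⟩ : ∃ c : ℝ, 0 < c ∧ c ≤ c₁ ∧ c ≤ c₂ ∧ c ≤ c₃ :=
    ⟨min c₁ (min c₂ c₃), lt_min hc₁ (lt_min hc₂ hc₃), min_le_left _ _,
      (min_le_right _ _).trans (min_le_left _ _), (min_le_right _ _).trans (min_le_right _ _)⟩
  set K := K₁ + K₂ + K₃ with hKdef
  have hK : 0 < K := by positivity
  refine ⟨c, 2 * K, hc, by positivity, fun P hP => ?_⟩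
  have hpos := hP.1
  have hms : ∀ (w : Fin m → Fin 2) (b A N : ℕ), 1 ≤ A → 1 ≤ N →
      (∑ a ∈ Ico b (b + A), ((jointCount P w a N : ℝ) / N - 1 / 2 ^ m) ^ 2) / A ≤
        K₂ * ((A : ℝ) ^ (-c₂) + (N : ℝ) ^ (-c₂)) := by
    intro w b A N hA hN
    have hA0 : (0 : ℝ) < A := by exact_mod_cast hA
    have hN0 : (0 : ℝ) < N := by exact_mod_cast hN
    rw [div_le_iff₀ hA0]
    have h1 : ∑ a ∈ Ico b (b + A), ((jointCount P w a N : ℝ) / N - 1 / 2 ^ m) ^ 2 =
        (∑ a ∈ Ico b (b + A), ((AC.cnt P w a N : ℝ) - N / 2 ^ m) ^ 2) / (N : ℝ) ^ 2 := by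
      rw [sum_div]
      refine sum_congr rfl fun a _ => ?_
      rw [jointCount_eq P hpos]
      field_simp
    rw [h1, div_le_iff₀ (by positivity)]
    refine (h₂ P hP w b A N hA hN).trans (le_of_eq ?_)
    ring
  have hKA : ∀ (K' c' : ℝ) (A : ℕ), 1 ≤ A → 0 < K' → K' ≤ K → c ≤ c' →
      K' * (A : ℝ) ^ (1 - c') ≤ K * (A : ℝ) ^ (1 - c) := by
    intro K' c' A hA hK' hK'K hcc'
    have hA' : (1 : ℝ) ≤ A := by exact_mod_cast hA
    exact mul_le_mul hK'K (Real.rpow_le_rpow_of_exponent_le hA' (by linarith)) (by positivity)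
      hK.le
  have h2 : ∀ b A Y : ℕ, 1 ≤ A → A ≤ Y → ∃ E : Finset ℕ, (E.card : ℝ) ≤ K * (A : ℝ) ^ (1 - c) ∧
      ∀ a ∈ Ico b (b + A), a ∉ E → GoodFrom (jointCount P) c A Y a := by
    intro b A Y hA hY
    obtain ⟨E, hE, h1⟩ := h₁ P (h₂ P hP) b A Y hA hY
    refine ⟨E, hE.trans (hKA K₁ c₁ A hA hK₁ (by linarith) hcc₁),
      fun a ha haE => goodFrom_mono _ hcc₁ hA ?_⟩
    intro N hN hN' w
    have hN0 : (0 : ℝ) < N := by exact_mod_cast (lt_of_lt_of_le hA (hY.trans hN))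
    have h5 := h1 a ha haE N hN hN' w
    rw [jointCount_eq P hpos]
    have h6 : (AC.cnt P w a N : ℝ) / N - 1 / 2 ^ m =
        ((AC.cnt P w a N : ℝ) - N / 2 ^ m) / N := by field_simp
    rw [h6, abs_div, abs_of_pos hN0, div_le_iff₀ hN0]
    exact h5
  have h3 : ∀ b A X : ℕ, 1 ≤ A → (A : ℝ) ^ 2 ≤ Real.log X →
      ∃ E : Finset ℕ, (E.card : ℝ) ≤ K * (A : ℝ) ^ (1 - c) ∧
        ∀ a ∈ Ico b (b + A), a ∉ E → LogGood (jointCount P) c A X a := by
    intro b A X hA hX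
    obtain ⟨E, hE, h1⟩ := h₃ (jointCount P) hms b A X hA hX
    exact ⟨E, hE.trans (hKA K₃ c₃ A hA hK₃ (by linarith) hcc₃),
      fun a ha haE => logGood_of _ ((h1 a ha haE).mono hcc₃ hA)⟩
  have hdouble : ∀ A : ℕ, K * (A : ℝ) ^ (1 - c) ≤ 2 * K * (A : ℝ) ^ (1 - c) := by
    intro A
    have : 0 ≤ K * (A : ℝ) ^ (1 - c) := by positivity
    linarith
  refine ⟨fun w b A N hA hN => ?_, fun b A Y hA hY => ?_, fun b A X hA hX => ?_,
    infinitely_often _ c K h2 h3⟩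
  · have hA' : (1 : ℝ) ≤ A := by exact_mod_cast hA
    have hN' : (1 : ℝ) ≤ N := by exact_mod_cast hN
    have e1 : (A : ℝ) ^ (-c₂) ≤ (A : ℝ) ^ (-c) :=
      Real.rpow_le_rpow_of_exponent_le hA' (by linarith)
    have e2 : (N : ℝ) ^ (-c₂) ≤ (N : ℝ) ^ (-c) :=
      Real.rpow_le_rpow_of_exponent_le hN' (by linarith)
    refine (hms w b A N hA hN).trans ?_
    have hKK : K₂ ≤ 2 * K := by linarith
    gcongr
  · obtain ⟨E, hE, h⟩ := h2 b A Y hA hY
    exact ⟨E, hE.trans (hdouble A), h⟩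
  · obtain ⟨E, hE, h⟩ := h3 b A X hA hX
    exact ⟨E, hE.trans (hdouble A), h⟩

private theorem wordCount_eq (P : ℤ[X]) (x : ℕ) {m : ℕ} (w : Fin m → Fin 2) (a N : ℕ) :
    wordCount P x w a N =
      jointCount (fun i : Fin m => P.comp (X + C ((x + i : ℕ) : ℤ))) w a N := by
  unfold wordCount jointCount
  rw [card_filter, card_filter, sum_Ico_eq_sum_range, Nat.add_sub_cancel_left]
  refine sum_congr rfl fun n _ => ?_
  congr 1
  refine propext (forall_congr' fun i => ?_)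
  have : (n : ℤ) + ((x : ℤ) + ((i : ℕ) : ℤ)) = (x : ℤ) + n + ((i : ℕ) : ℤ) := by ring
  simp [this]

private theorem fam_shift {P : ℤ[X]} {d r m : ℕ} (hd : P.natDegree = d + 2)
    (hr : ¬ (2 : ℤ) ^ r ∣ P.leadingCoeff) (hpos : ∀ n : ℕ, 0 ≤ P.eval (n : ℤ)) (x : ℕ) :
    AC.Fam (fun i : Fin m => P.comp (X + C ((x + i : ℕ) : ℤ))) (d + 1)
      (r + (d + 2 + m) + (d + 2)) := by
  have h0 : d + 2 < 2 ^ (d + 2) := Nat.lt_two_pow_self
  refine ⟨fun i n => ?_, fun i => ?_, fun i j hij => ?_⟩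
  · have := hpos (n + (x + i))
    simpa using this
  · have h1 := AC.adm_shift hd hr ((x + i : ℕ) : ℤ) (d + 2 + m + (d + 2))
      (h0.trans_le (Nat.pow_le_pow_right (by norm_num) (by omega)))
    rwa [← add_assoc] at h1
  · refine AC.adm_shift_sub hd hr _ _ ?_ (d + 2 + m) ?_ (d + 2) (by omega)
    · intro h
      apply hij
      have h2 : x + (i : ℕ) = x + j := by exact_mod_cast h
      exact Fin.ext (by omega)
    · have h1 : (((x + i : ℕ) : ℤ) - ((x + j : ℕ) : ℤ)).natAbs < m := by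
        have := i.2
        have := j.2
        omega
      have h2 : m < 2 ^ m := Nat.lt_two_pow_self
      rw [pow_add]
      exact Nat.mul_lt_mul'' h0 (h1.trans h2)

private theorem adm_of {R : ℤ[X]} {d r : ℕ} (h1 : 1 ≤ R.natDegree) (h2 : R.natDegree ≤ d)
    (hr : ¬ (2 : ℤ) ^ r ∣ R.leadingCoeff) : AC.Adm R.derivative d (r + d) := by
  obtain ⟨n, hn⟩ : ∃ n, R.natDegree = n + 1 := ⟨R.natDegree - 1, by omega⟩
  refine AC.adm_derivative (n := n) hn.le (by omega) ?_ ?_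
  · rw [← hn]
    exact h2.trans_lt Nat.lt_two_pow_self
  · rwa [← hn]

/-- The Thue-Morse sequence along `P + a` is nearly normal for almost all constants `a`, for every
polynomial `P` of degree at least two with integer coefficients and nonnegative values, with
constants depending only on the degree, the length of the words and the power of two in the leading
coefficient, in windows starting at any place `x`; and the same holds jointly for families of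
nonconstant polynomials with nonconstant differences. -/
theorem result :
    (∀ d r m : ℕ, 2 ≤ d → ∃ c K : ℝ, 0 < c ∧ 0 < K ∧
      ∀ P : ℤ[X], P.natDegree = d → ¬ (2 : ℤ) ^ r ∣ P.leadingCoeff →
        (∀ n : ℕ, 0 ≤ P.eval (n : ℤ)) → ∀ x : ℕ, NearNormal m c K (wordCount P x)) ∧
    (∀ d r m : ℕ, ∃ c K : ℝ, 0 < c ∧ 0 < K ∧
      ∀ P : Fin m → ℤ[X], (∀ i, ∀ n : ℕ, 0 ≤ (P i).eval (n : ℤ)) →
        (∀ i, 1 ≤ (P i).natDegree ∧ (P i).natDegree ≤ d ∧ ¬ (2 : ℤ) ^ r ∣ (P i).leadingCoeff) →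
        (∀ i j, i ≠ j → 1 ≤ (P i - P j).natDegree ∧ ¬ (2 : ℤ) ^ r ∣ (P i - P j).leadingCoeff) →
        NearNormal m c K (jointCount P)) := by
  constructor
  · intro d r m hd
    obtain ⟨d, rfl⟩ : ∃ d', d = d' + 2 := ⟨d - 2, by omega⟩
    obtain ⟨c, K, hc, hK, h⟩ := nearNormal_joint m (d + 1) (r + (d + 2 + m) + (d + 2))
    refine ⟨c, K, hc, hK, fun P hP hr hpos x => ?_⟩
    have h1 : (wordCount P x : (Fin m → Fin 2) → ℕ → ℕ → ℕ) =
        jointCount (fun i : Fin m => P.comp (X + C ((x + i : ℕ) : ℤ))) := by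
      funext w a N
      exact wordCount_eq P x w a N
    rw [h1]
    exact h _ (fam_shift hP hr hpos x)
  · intro d r m
    obtain ⟨c, K, hc, hK, h⟩ := nearNormal_joint m d (r + d)
    refine ⟨c, K, hc, hK, fun P hpos h1 h2 => h P ⟨hpos, fun i => ?_, fun i j hij => ?_⟩⟩
    · exact adm_of (h1 i).1 (h1 i).2.1 (h1 i).2.2
    · rw [← derivative_sub]
      refine adm_of (h2 i j hij).1 ?_ (h2 i j hij).2
      exact (natDegree_sub_le _ _).trans (max_le (h1 i).2.1 (h1 j).2.1)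

end Pool.Agent.Results.MP_8fac0f_nt.AlmostAllConstants
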