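import Pool.Agent.Lib.MP_8fac0f_nt.OX.Word
import Pool.Agent.Lib.MP_8fac0f_nt.OX.AsymG
import Pool.Agent.Lib.MP_8fac0f_nt.Integer

/-!
# Every word occurs often in the Thue-Morse sequence along a polynomial

For every polynomial `P` of degree `d ≥ 2` with integer coefficients and nonnegative values at the
naturals, every word of length `k` occurs at least `c N ^ (2 / (d + 1))` times among the first `N`
words of the sequence `t (P n)`.

The arguments are `n = x + 2 ^ j m`, `j = K, ..., K + S`, with `x ^ d` about `2 ^ K` and `m` a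
little smaller than `x`. `P (n + i) = P (x + i) + 2 ^ j m P' (x + i) + ...` is a sum of blocks, and
only the first two overlap, in a bounded number of digits, which contain the leading digits `τ` of
`P x` and the last digits of `m P' (x + i)`. If the leading digits of `x` and the residues of `x`
and `m` modulo a power of two are fixed suitably, then the vectors of the signs of
`P (x + i + 2 ^ j m)`, `i < k`, for `j = K, ..., K + S`, contain every word of length `k`: the
leading digits `τ / 2 ^ s` of `P x` run through a list of numbers that produces every pattern of the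
parities of the numbers of the carries.
-/

set_option autoImplicit false

namespace Pool.Agent.Results.MP_8fac0f_nt.EveryWordOccurs

open Finset Polynomial Pool.Agent.Lib.MP_8fac0f_nt Pool.Agent.Lib.MP_8fac0f_nt.OX

/-- The Thue-Morse sequence: the binary sum of digits of `n`, modulo two. -/
def thueMorse (n : ℕ) : ℕ := (Nat.digits 2 n).sum % 2

/-- The first values are 0, 1, 1, 0, 1, 0, 0, 1. -/
theorem thueMorse_values : (List.range 8).map thueMorse = [0, 1, 1, 0, 1, 0, 0, 1] := by
  simp [thueMorse, List.range_succ]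

theorem sg_iff (n : ℕ) (b : ℕ) (hb : b < 2) : thueMorse n = b ↔ N.sg n = (-1) ^ b := by
  have h1 : N.sg n = (-1) ^ thueMorse n := by
    unfold N.sg thueMorse
    rw [← neg_one_pow_eq_pow_mod_two]
  have h2 : thueMorse n < 2 := Nat.mod_lt _ (by norm_num)
  rw [h1]
  generalize thueMorse n = a at h2
  interval_cases a <;> interval_cases b <;> norm_num

/-- For every polynomial `P` with integer coefficients, of degree `d ≥ 2`, with `P n ≥ 0` for all
`n ≥ 0`, and every `k` there is `c > 0` such that for all sufficiently large `N` and every word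
`w` of length `k` the number of the `n < N` at which `w` occurs in the sequence
`thueMorse (P n)` is at least `c N ^ (2 / (d + 1))`. -/
theorem result (P : ℤ[X]) (d : ℕ) (hd2 : 2 ≤ d) (hd : P.natDegree = d)
    (hpos : ∀ n : ℕ, 0 ≤ P.eval (n : ℤ)) (k : ℕ) :
    ∃ c : ℝ, 0 < c ∧ ∀ᶠ N : ℕ in Filter.atTop, ∀ w : Fin k → Fin 2,
      c * (N : ℝ) ^ ((2 : ℝ) / ((d : ℝ) + 1)) ≤
        (((range N).filter fun n : ℕ =>
          ∀ i : Fin k, thueMorse (P.eval ((n + i : ℕ) : ℤ)).toNat = w i).card : ℝ) := by
  obtain ⟨v, Q, hQ, hQP⟩ := exists_nat_poly P (by omega) hpos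
  obtain ⟨n, rfl⟩ : ∃ n, d = n + 2 := ⟨d - 2, by omega⟩
  obtain ⟨C0, lam, h0, hcount⟩ := word_count Q n k (hQ.trans hd)
  have key : ∃ lam' μ0 : ℕ, ∀ μ : ℕ, μ0 ≤ μ → ∀ N : ℕ, 2 ^ (lam' + (n + 3) * μ) ≤ N →
      ∀ w : Fin k → Fin 2, 2 ^ (2 * μ) ≤ 2 ^ C0 * ((range N).filter fun n : ℕ =>
        ∀ i : Fin k, thueMorse (P.eval ((n + i : ℕ) : ℤ)).toNat = w i).card := by
    refine ⟨lam + v + 1, h0, ?_⟩
    intro μ hμ N hN w
    have hx : 1 ≤ 2 ^ (lam + (n + 3) * μ) := Nat.one_le_two_pow
    have h2 : 2 ^ (lam + (n + 3) * μ) + v ≤ N := by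
      refine le_trans ?_ hN
      have e1 : 2 ^ (lam + v + 1 + (n + 3) * μ) = 2 ^ (lam + (n + 3) * μ) * 2 ^ (v + 1) := by
        rw [← pow_add]; congr 1; ring
      have e2 : v + 1 < 2 ^ (v + 1) := Nat.lt_two_pow_self
      rw [e1]
      nlinarith
    have h3 := hcount μ hμ (N - v) (by omega)
      (fun i => if h : i < k then (-1) ^ (w ⟨i, h⟩ : ℕ) else 1) (fun i => by
        split_ifs
        · exact neg_one_pow_eq_or ℝ _
        · exact Or.inl rfl)
    refine h3.trans (Nat.mul_le_mul_left _ ?_)
    refine card_le_card_of_injOn (fun n => n + v) (fun m hm => ?_) (fun a _ b _ hab => by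
      have : a + v = b + v := hab
      omega)
    have hm' := mem_filter.1 (mem_coe.1 hm)
    have hm1 := mem_range.1 hm'.1
    have hlt : m + v < N := by omega
    refine mem_coe.2 (mem_filter.2 ⟨mem_range.2 hlt, fun i => ?_⟩)
    have h4 := hm'.2 i i.isLt
    rw [dif_pos i.isLt] at h4
    rw [sg_iff _ _ (w i).isLt]
    have e1 : m + v + (i : ℕ) = m + i + v := by ring
    rw [e1, hQP (m + i)]
    exact h4
  obtain ⟨c, hc, N0, h⟩ := asymG (fun (w : Fin k → Fin 2) (N : ℕ) =>
    ((range N).filter fun n : ℕ =>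
      ∀ i : Fin k, thueMorse (P.eval ((n + i : ℕ) : ℤ)).toNat = w i).card) 2 (n + 3) C0
    (Nat.succ_pos _) (by omega) key
  refine ⟨c, hc, ?_⟩
  filter_upwards [Filter.eventually_ge_atTop N0] with N hN w
  have h1 := h N hN w
  have e1 : (((n + 2 : ℕ) : ℝ) + 1) = ((n + 3 : ℕ) : ℝ) := by push_cast; ring
  rw [e1]
  exact_mod_cast h1

end Pool.Agent.Results.MP_8fac0f_nt.EveryWordOccurs
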