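import Pool.Agent.Lib.MP_8fac0f_nt.OY.TotI
import Pool.Agent.Lib.MP_8fac0f_nt.OY.AsymF
import Pool.Agent.Lib.MP_8fac0f_nt.OW.Asym2
import Pool.Agent.Lib.MP_8fac0f_nt.Integer

/-!
# Both values of every parity sum of the Thue-Morse sequence along a polynomial occur often

For every polynomial `P` of degree `d ≥ 2` with integer coefficients and nonnegative values at the
naturals, every nonempty finite set `I` of naturals and every `e < 2 / d`, the sum of the
`t (P (n + i))`, `i ∈ I`, is even for at least `N ^ e` and odd for at least `N ^ e` of the `n < N`,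
if `N` is large. The case `I = {0}` concerns the two letters of `t (P n)`.

The arguments are `x + 2 ^ k m`, with `x` and `m` of about `(J + 1) h` digits and
`k = d (J + 1) h - J h + O(1)`. `P (x + 2 ^ k m)` is a sum of `d + 1` blocks `A l m ^ l 2 ^ (k l)`
of about `d (J + 1) h` digits each, and neighbouring blocks overlap in `w = J h` digits. With the
shifts `δ i` close to `2 ^ ((J - i) h)`, `i < J`, the product of the signs of `P (x + 2 ^ j m')`
over `j = k, k + 1` and the `2 ^ J` vertices `m' = m + ∑ i ∈ T, δ i` of a cube is `-1` for a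
positive proportion of the pairs `x, m`: the digits of the middle of a block cancel between the two
scales `j`, and the digits of the overlaps in the zone `[(J - 1 - i) h, (J - i) h)` do not change
under the shift `δ i`, apart from a small set of exceptions. The sign `-1` comes from the carry out
of the first overlap, which occurs only for `j = k` and only at the two vertices `m`, `m + δ 0`.
For a set `I` of shifts of `n`, this carry is arranged for one element of `I`, and a carry for
another element would need that two different linear forms in `m` are close to multiples of `2 ^ w`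
from below; this is rare, as the ratio of the two coefficients `P' (x + i)` is seldom close
to a fraction with a small denominator in the `2`-adic sense.
-/

set_option autoImplicit false

namespace Pool.Agent.Results.MP_8fac0f_nt.LetterRecord

open Finset Polynomial Pool.Agent.Lib.MP_8fac0f_nt Pool.Agent.Lib.MP_8fac0f_nt.OW
open Pool.Agent.Lib.MP_8fac0f_nt.OY

/-- The Thue-Morse sequence: the binary sum of digits of `n`, modulo two. -/
def thueMorse (n : ℕ) : ℕ := (Nat.digits 2 n).sum % 2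

/-- The first values are 0, 1, 1, 0, 1, 0, 0, 1. -/
theorem thueMorse_values : (List.range 8).map thueMorse = [0, 1, 1, 0, 1, 0, 0, 1] := by
  simp [thueMorse, List.range_succ]

theorem sg_eq (n : ℕ) : N.sg n = (-1) ^ thueMorse n := by
  unfold N.sg thueMorse
  rw [← neg_one_pow_eq_pow_mod_two]

theorem par_iff (S b : ℕ) (hb : b < 2) : S % 2 = b ↔ ((-1 : ℝ)) ^ S = (-1) ^ b := by
  rw [neg_one_pow_eq_pow_mod_two (R := ℝ) (n := S)]
  have h2 : S % 2 < 2 := Nat.mod_lt _ (by norm_num)
  generalize S % 2 = a at h2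
  interval_cases a <;> interval_cases b <;> norm_num

/-- The number of the arguments with a given product of signs. -/
noncomputable def cntI (P : ℤ[X]) (I : Finset ℕ) (ε : ℝ) (M : ℕ) : ℕ :=
  ((range M).filter fun n : ℕ => ∏ i ∈ I, N.sg (P.eval ((n + i : ℕ) : ℤ)).toNat = ε).card

theorem signs (P : ℤ[X]) (d J : ℕ) (hd2 : 2 ≤ d) (hJ : 1 ≤ J) (hd : P.natDegree = d)
    (hpos : ∀ n : ℕ, 0 ≤ P.eval (n : ℤ)) (I : Finset ℕ) (hI : I.Nonempty) :
    ∃ c : ℝ, 0 < c ∧ ∃ N0 : ℕ, ∀ N : ℕ, N0 ≤ N → ∀ ε : ℝ, (ε = 1 ∨ ε = -1) →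
      c * (N : ℝ) ^ ((2 * ((J : ℝ) + 1)) / ((d : ℝ) * ((J : ℝ) + 1) + 1)) ≤ cntI P I ε N := by
  obtain ⟨v, Q, hQ, hQP⟩ := exists_nat_poly P (by omega) hpos
  obtain ⟨n, rfl⟩ : ∃ n, d = n + 2 := ⟨d - 2, by omega⟩
  obtain ⟨i0, hi0⟩ := hI
  obtain ⟨s, hs⟩ := exists_shift Q (by rw [hQ, hd]; omega) i0 I
  obtain ⟨lam, w0, hlam⟩ := twinI (fun i => sh Q (i + s)) I i0 hi0 n J
    (fun i _ => by rw [sh_natDegree, hQ, hd]) hJ hs
  have hle : 2 * (J + 1) ≤ (n + 2) * (J + 1) + 1 :=
    (Nat.mul_le_mul_right _ (by omega)).trans (Nat.le_succ _)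
  have h1 := asymF (cntI P I) (2 * (J + 1)) ((n + 2) * (J + 1) + 1) (J + 1) (Nat.succ_pos _) hle
    ⟨lam + (v + s) + 1, w0, ?_⟩
  · push_cast at h1 ⊢
    exact h1
  · intro μ hμ N hN ε hε
    have hx : 1 ≤ 2 ^ (lam + ((n + 2) * (J + 1) + 1) * μ) := Nat.one_le_two_pow
    have h2 : 2 ^ (lam + ((n + 2) * (J + 1) + 1) * μ) + (v + s) ≤ N := by
      refine le_trans ?_ hN
      have e1 : 2 ^ (lam + (v + s) + 1 + ((n + 2) * (J + 1) + 1) * μ) =
          2 ^ (lam + ((n + 2) * (J + 1) + 1) * μ) * 2 ^ (v + s + 1) := by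
        rw [← pow_add]; congr 1; ring
      have e2 : v + s + 1 < 2 ^ (v + s + 1) := Nat.lt_two_pow_self
      rw [e1]
      nlinarith
    have h3 := hlam μ hμ (N - (v + s)) (by omega) ε hε
    refine h3.trans (Nat.mul_le_mul_left _ ?_)
    unfold cntI
    refine card_le_card_of_injOn (fun n => n + (v + s)) (fun m hm => ?_) (fun a _ b _ hab => by
      have : a + (v + s) = b + (v + s) := hab
      omega)
    have hm' := mem_filter.1 (mem_coe.1 hm)
    have hm1 := mem_range.1 hm'.1
    have hlt : m + (v + s) < N := by omega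
    refine mem_coe.2 (mem_filter.2 ⟨mem_range.2 hlt, ?_⟩)
    rw [← hm'.2]
    refine prod_congr rfl fun i _ => ?_
    rw [sh_eval, ← hQP (m + (i + s))]
    have e3 : m + (v + s) + i = m + (i + s) + v := by ring
    rw [e3]

/-- For every polynomial `P` with integer coefficients, of degree `d ≥ 2`, with `P n ≥ 0` for all
`n ≥ 0`, every nonempty finite set `I` of naturals and every `e < 2 / d`: for all sufficiently large
`N` and `b = 0, 1` the number of the `n < N` for which the sum of the `thueMorse (P (n + i))`,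
`i ∈ I`, is congruent to `b` modulo two is at least `N ^ e`. -/
theorem result (P : ℤ[X]) (d : ℕ) (hd2 : 2 ≤ d) (hd : P.natDegree = d)
    (hpos : ∀ n : ℕ, 0 ≤ P.eval (n : ℤ)) (I : Finset ℕ) (hI : I.Nonempty) (e : ℝ)
    (he : e < 2 / (d : ℝ)) :
    ∀ᶠ N : ℕ in Filter.atTop, ∀ b : ℕ, b < 2 →
      (N : ℝ) ^ e ≤ (((range N).filter fun n : ℕ =>
        (∑ i ∈ I, thueMorse (P.eval ((n + i : ℕ) : ℤ)).toNat) % 2 = b).card : ℝ) := by
  obtain ⟨J, hJ, heJ⟩ := exists_J d hd2 e he
  obtain ⟨c, hc, N0, h⟩ := signs P d J hd2 hJ hd hpos I hI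
  set e1 : ℝ := (2 * ((J : ℝ) + 1)) / ((d : ℝ) * ((J : ℝ) + 1) + 1) with he1
  have hlim : Filter.Tendsto (fun N : ℕ => (N : ℝ) ^ (e1 - e)) Filter.atTop Filter.atTop :=
    (tendsto_rpow_atTop (by linarith)).comp tendsto_natCast_atTop_atTop
  filter_upwards [Filter.eventually_ge_atTop N0, Filter.eventually_ge_atTop 1,
    hlim.eventually_ge_atTop c⁻¹] with N hN hN1 hNc b hb
  have h1 := h N hN ((-1) ^ b) (neg_one_pow_eq_or ℝ b)
  have h2 : cntI P I ((-1) ^ b) N = ((range N).filter fun n : ℕ =>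
      (∑ i ∈ I, thueMorse (P.eval ((n + i : ℕ) : ℤ)).toNat) % 2 = b).card := by
    unfold cntI
    congr 1
    refine filter_congr fun n _ => ?_
    rw [par_iff _ b hb, ← prod_pow_eq_pow_sum, prod_congr rfl fun i _ => sg_eq _]
  rw [h2] at h1
  refine le_trans ?_ h1
  have hNpos : (0 : ℝ) < N := by exact_mod_cast hN1
  have h3 : (N : ℝ) ^ e1 = (N : ℝ) ^ (e1 - e) * (N : ℝ) ^ e := by
    rw [← Real.rpow_add hNpos]; congr 1; ring
  have h4 : 0 ≤ (N : ℝ) ^ e := Real.rpow_nonneg hNpos.le _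
  have h5 : 1 ≤ c * (N : ℝ) ^ (e1 - e) := by
    calc (1 : ℝ) = c * c⁻¹ := (mul_inv_cancel₀ hc.ne').symm
      _ ≤ _ := mul_le_mul_of_nonneg_left hNc hc.le
  calc (N : ℝ) ^ e = 1 * (N : ℝ) ^ e := (one_mul _).symm
    _ ≤ (c * (N : ℝ) ^ (e1 - e)) * (N : ℝ) ^ e := mul_le_mul_of_nonneg_right h5 h4
    _ = c * (N : ℝ) ^ e1 := by rw [h3]; ring

end Pool.Agent.Results.MP_8fac0f_nt.LetterRecord
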