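import Pool.Agent.Lib.MP_8fac0f_nt.N.M2
import Pool.Agent.Lib.MP_8fac0f_nt.C3.Fin
import Pool.Agent.Lib.MP_8fac0f_nt.Q4.Fin
import Pool.Agent.Lib.MP_8fac0f_nt.Integer

/-!
# The Thue-Morse sequence is normal along every polynomial of degree two, three or four
-/

set_option autoImplicit false

namespace Pool.Agent.Results.MP_8fac0f_nt.NormalityDegreesTwoThreeFour

open Filter Topology Polynomial Pool.Agent.Lib.MP_8fac0f_nt

/-- The Thue-Morse sequence: the binary sum of digits of `n`, modulo two. -/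
def thueMorse (n : ℕ) : ℕ := (Nat.digits 2 n).sum % 2

/-- The first values are 0, 1, 1, 0, 1, 0, 0, 1. -/
theorem thueMorse_values : (List.range 8).map thueMorse = [0, 1, 1, 0, 1, 0, 0, 1] := by
  simp [thueMorse, List.range_succ]

theorem sg_eq (n : ℕ) : N.sg n = (-1) ^ thueMorse n := by
  unfold N.sg thueMorse
  conv_lhs => rw [← Nat.div_add_mod (Nat.digits 2 n).sum 2, pow_add, pow_mul]
  simp

theorem eval_quad (Q : ℕ[X]) (hQ : Q.natDegree = 2) (n : ℕ) :
    Q.eval n = N.qd (Q.coeff 2) (Q.coeff 1) (Q.coeff 0) n := by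
  rw [eval_eq_sum_range, hQ]
  unfold N.qd
  simp [Finset.sum_range_succ]
  ring

theorem eval_cub (Q : ℕ[X]) (hQ : Q.natDegree = 3) (n : ℕ) :
    Q.eval n = C3.P (Q.coeff 3) (Q.coeff 2) (Q.coeff 1) (Q.coeff 0) n := by
  rw [eval_eq_sum_range, hQ]
  unfold C3.P
  simp [Finset.sum_range_succ]
  ring

theorem eval_quart (Q : ℕ[X]) (hQ : Q.natDegree = 4) (n : ℕ) :
    Q.eval n = Q4.Co.P ⟨Q.coeff 4, Q.coeff 3, Q.coeff 2, Q.coeff 1, Q.coeff 0⟩ n := by
  rw [eval_eq_sum_range, hQ]
  unfold Q4.Co.P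
  simp [Finset.sum_range_succ]
  ring

theorem corr (Q : ℕ[X]) (hQ : Q.natDegree = 2 ∨ Q.natDegree = 3 ∨ Q.natDegree = 4) (J : Finset ℕ)
    (hJ : J.Nonempty) (hJe : Even J.card) : N.CorrZero (fun n => N.sg (Q.eval n)) J := by
  have hlead : 1 ≤ Q.coeff Q.natDegree := by
    have : Q.leadingCoeff ≠ 0 := by
      apply leadingCoeff_ne_zero.2
      rintro rfl
      simp at hQ
    rw [leadingCoeff] at this
    omega
  rcases hQ with h | h | h
  · simp only [eval_quad Q h]
    rw [h] at hlead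
    exact N.quad_corr _ _ _ hlead J hJ hJe
  · simp only [eval_cub Q h]
    rw [h] at hlead
    exact C3.cubic_corr _ _ _ _ hlead J hJ hJe
  · simp only [eval_quart Q h]
    rw [h] at hlead
    exact Q4.quartic_corr ⟨Q.coeff 4, Q.coeff 3, Q.coeff 2, Q.coeff 1, Q.coeff 0⟩ hlead J hJ hJe

/-- For every polynomial `P` of degree two, three or four with integer coefficients and nonnegative
values at the naturals, the sequence `n ↦ thueMorse (P n)` is normal. -/
theorem result (P : ℤ[X]) (hP : P.natDegree = 2 ∨ P.natDegree = 3 ∨ P.natDegree = 4)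
    (hpos : ∀ n : ℕ, 0 ≤ P.eval (n : ℤ)) (k : ℕ) (w : Fin k → Fin 2) :
    Tendsto (fun N : ℕ => (((Finset.range N).filter
      (fun n => ∀ i : Fin k, thueMorse (P.eval ((n + i : ℕ) : ℤ)).toNat = w i)).card : ℝ) / N)
      atTop (𝓝 ((1 / 2) ^ k)) := by
  obtain ⟨v, Q, hQd, hQ⟩ := exists_nat_poly P (by omega) hpos
  rw [← hQd] at hP
  have hcorr : ∀ J : Finset ℕ, J.Nonempty → N.CorrZero (fun n => N.sg (Q.eval n)) J :=
    N.even_reduction _ (fun n => N.sg_cases _) (corr Q hP)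
  have h := N.normal_of_corr (fun n => thueMorse (Q.eval n)) (fun n => N.sg (Q.eval n))
    (fun n => Nat.mod_lt _ (by norm_num)) (fun n => sg_eq _) hcorr k w
  refine N.tendsto_shift (fun n => ∀ i : Fin k, thueMorse (P.eval ((n + i : ℕ) : ℤ)).toNat = w i)
    v _ ?_
  refine h.congr fun N => ?_
  congr 3
  ext n
  simp only [Finset.mem_filter]
  refine and_congr_right fun _ => forall_congr' fun i => ?_
  rw [show n + v + (i : ℕ) = n + i + v by ring, hQ]

end Pool.Agent.Results.MP_8fac0f_nt.NormalityDegreesTwoThreeFour
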